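import Pool.Agent.Helper20.RL.St5
import Pool.Agent.Helper13.RG.M_E1

set_option autoImplicit false

open MeasureTheory Set Filter Topology
open scoped ENNReal RealInnerProductSpace

namespace Pool.Agent.Helper61.RL

open Pool.Agent.Helper20.RG Pool.Agent.Helper20.RL
open Pool.Agent.Helper68.LM (Pl)
open Pool.Agent.Helper13.RG (Wd norm_Wd exp_diff Wd_two kap Yh_eq kap_one main)

theorem mul_sinc (x : ℝ) : x * Real.sinc x = Real.sin x := by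
  by_cases hx : x = 0
  · subst hx; simp
  · rw [Real.sinc_of_ne_zero hx]
    field_simp

theorem sin_lip (x y : ℝ) : |Real.sin x - Real.sin y| ≤ |x - y| := by
  rw [Real.sin_sub_sin, abs_mul, abs_mul]
  have h1 : |Real.sin ((x - y) / 2)| ≤ |(x - y) / 2| := Real.abs_sin_le_abs
  have h2 : |Real.cos ((x + y) / 2)| ≤ 1 := Real.abs_cos_le_one _
  rw [abs_div] at h1
  rw [abs_two] at h1 ⊢
  calc 2 * |Real.sin ((x - y) / 2)| * |Real.cos ((x + y) / 2)|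
      ≤ 2 * |Real.sin ((x - y) / 2)| * 1 := mul_le_mul_of_nonneg_left h2 (by positivity)
    _ ≤ |x - y| := by linarith

/-- difference of two waves, with decay -/
theorem Wd_diff2 (hSINC : StSINC) (A B x y : ℝ) (hxy : 7 / 8 * |y| ≤ |x|) :
    |y| * ‖Wd A x - Wd B y‖ ≤ 8 / 7 * (2 * Real.pi * |A - B|) + 2 * |x - y| := by
  obtain ⟨h1, -, -⟩ := hSINC
  have h : Wd A x - Wd B y =
      (Complex.exp (((-2 * Real.pi * A : ℝ) : ℂ) * Complex.I) -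
        Complex.exp (((-2 * Real.pi * B : ℝ) : ℂ) * Complex.I)) * ((Real.sinc x : ℝ) : ℂ) +
      Complex.exp (((-2 * Real.pi * B : ℝ) : ℂ) * Complex.I) *
        ((Real.sinc x - Real.sinc y : ℝ) : ℂ) := by
    unfold Wd
    push_cast
    ring
  have h3 := exp_diff (-2 * Real.pi * A) (-2 * Real.pi * B)
  have h4 : |-2 * Real.pi * A - -2 * Real.pi * B| = 2 * Real.pi * |A - B| := by
    rw [show -2 * Real.pi * A - -2 * Real.pi * B = -(2 * Real.pi * (A - B)) by ring, abs_neg,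
      abs_mul, abs_of_pos (by positivity : (0 : ℝ) < 2 * Real.pi)]
  rw [h4] at h3
  have h5 : ‖Wd A x - Wd B y‖ ≤ ‖Complex.exp (((-2 * Real.pi * A : ℝ) : ℂ) * Complex.I) -
      Complex.exp (((-2 * Real.pi * B : ℝ) : ℂ) * Complex.I)‖ * |Real.sinc x| +
      |Real.sinc x - Real.sinc y| := by
    rw [h]
    refine (norm_add_le _ _).trans ?_
    rw [norm_mul, norm_mul, Complex.norm_exp_ofReal_mul_I, one_mul, Complex.norm_real,
      Complex.norm_real, Real.norm_eq_abs, Real.norm_eq_abs]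
  have h6 : |y| * |Real.sinc x| ≤ 8 / 7 := by
    have h7 := (h1 x).2.1
    rw [abs_mul] at h7
    have h8 : 7 / 8 * |y| * |Real.sinc x| ≤ |x| * |Real.sinc x| :=
      mul_le_mul_of_nonneg_right hxy (abs_nonneg _)
    linarith
  have h9 : |y| * |Real.sinc x - Real.sinc y| ≤ 2 * |x - y| := by
    rw [← abs_mul]
    have e : y * (Real.sinc x - Real.sinc y) =
        (Real.sin x - Real.sin y) + (y - x) * Real.sinc x := by
      have e1 := mul_sinc x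
      have e2 := mul_sinc y
      linarith
    rw [e]
    refine (abs_add_le _ _).trans ?_
    rw [abs_mul, abs_sub_comm y x]
    have e3 := sin_lip x y
    have e4 : |x - y| * |Real.sinc x| ≤ |x - y| * 1 :=
      mul_le_mul_of_nonneg_left (h1 x).1 (abs_nonneg _)
    linarith
  calc |y| * ‖Wd A x - Wd B y‖ ≤ |y| * (‖Complex.exp (((-2 * Real.pi * A : ℝ) : ℂ) * Complex.I) -
      Complex.exp (((-2 * Real.pi * B : ℝ) : ℂ) * Complex.I)‖ * |Real.sinc x| +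
      |Real.sinc x - Real.sinc y|) := mul_le_mul_of_nonneg_left h5 (abs_nonneg _)
    _ = (|y| * |Real.sinc x|) * ‖Complex.exp (((-2 * Real.pi * A : ℝ) : ℂ) * Complex.I) -
      Complex.exp (((-2 * Real.pi * B : ℝ) : ℂ) * Complex.I)‖ +
      |y| * |Real.sinc x - Real.sinc y| := by ring
    _ ≤ 8 / 7 * (2 * Real.pi * |A - B|) + 2 * |x - y| :=
      add_le_add (mul_le_mul h6 h3 (norm_nonneg _) (by norm_num)) h9

/-- the additional bound for the difference between the parent and the children -/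
theorem main2 (hPT : StPT) (hSINC : StSINC) (P h : ℝ) (m : ℕ) (hP : 0 < P)
    (hh : h = (2 : ℝ) ^ (-(m : ℤ))) (s s₁ s₂ : ℝ) (c c₁ c₂ : Pl)
    (a1 : |s₁ - s| ≤ h * P) (a2 : |s₂ - s| ≤ h * P)
    (b1 : c₁ 0 = c 0 - 1 / (4 * P)) (b2 : c₂ 0 = c 0 + 1 / (4 * P))
    (d1 : |c₁ 1 - (c 1 - s / (4 * P))| ≤ h) (d2 : |c₂ 1 - (c 1 + s / (4 * P))| ≤ h) (ξ : Pl) :
    ‖(Yh s₁ c₁ m (1 / (2 * P)) ξ + Yh s₂ c₂ m (1 / (2 * P)) ξ) / 2 - Yh s c m (1 / P) ξ‖ *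
      (1 / P * |⟪E s, ξ⟫|) ≤ 16 * (‖ξ‖ * h) := by
  have hS := hSINC
  have hmain := (main hPT hSINC P h m hP hh s s₁ s₂ c c₁ c₂ a1 a2 b1 b2 d1 d2 ξ).1
  have hhp : 0 < h := by rw [hh]; positivity
  have hκ1 := kap_one hS m ξ
  obtain ⟨p1, -, p3, p4, -⟩ := hPT
  obtain ⟨-, q2, -, -⟩ := p3 ξ
  have hE : ∀ t : ℝ, ⟪E t, ξ⟫ = ξ 0 + t * ξ 1 := by
    intro t
    rw [p4]
    unfold E
    rw [(p1 1 t).1, (p1 1 t).2, one_mul]
  have hr0 := norm_nonneg ξ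
  have hpi := Real.pi_gt_three
  have hpi2 := Real.pi_lt_d2
  by_cases hc : 8 * (h * ‖ξ‖) ≤ 1 / P * |⟪E s, ξ⟫|
  · set b : ℝ := ⟪E s, ξ⟫ with hb
    set bb₁ : ℝ := ⟪E s₁, ξ⟫ with hb1
    set bb₂ : ℝ := ⟪E s₂, ξ⟫ with hb2
    have e1 : |bb₁ - b| ≤ h * P * ‖ξ‖ := by
      rw [hb1, hb, hE, hE, show ξ 0 + s₁ * ξ 1 - (ξ 0 + s * ξ 1) = (s₁ - s) * ξ 1 by ring, abs_mul]
      exact mul_le_mul a1 q2 (abs_nonneg _) (by positivity)
    have e2 : |bb₂ - b| ≤ h * P * ‖ξ‖ := by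
      rw [hb2, hb, hE, hE, show ξ 0 + s₂ * ξ 1 - (ξ 0 + s * ξ 1) = (s₂ - s) * ξ 1 by ring, abs_mul]
      exact mul_le_mul a2 q2 (abs_nonneg _) (by positivity)
    have hrew : (Yh s₁ c₁ m (1 / (2 * P)) ξ + Yh s₂ c₂ m (1 / (2 * P)) ξ) / 2 -
        Yh s c m (1 / P) ξ =
        ((Wd ⟪c₁, ξ⟫ (Real.pi * (1 / (2 * P)) * bb₁) +
          Wd ⟪c₂, ξ⟫ (Real.pi * (1 / (2 * P)) * bb₂)) / 2 -
          Wd ⟪c, ξ⟫ (Real.pi * (1 / P) * b)) * ((kap m ξ : ℝ) : ℂ) := by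
      rw [Yh_eq, Yh_eq, Yh_eq]
      ring
    rw [hrew, norm_mul, Complex.norm_real, Real.norm_eq_abs]
    set W₁ : ℂ := Wd ⟪c₁, ξ⟫ (Real.pi * (1 / (2 * P)) * bb₁) with hW1
    set W₂ : ℂ := Wd ⟪c₂, ξ⟫ (Real.pi * (1 / (2 * P)) * bb₂) with hW2
    set W₀ : ℂ := Wd ⟪c, ξ⟫ (Real.pi * (1 / P) * b) with hW0
    set y : ℝ := Real.pi * (1 / (2 * P)) * b with hy
    have hbpos : h * P * ‖ξ‖ ≤ |b| / 8 := by
      have := mul_le_mul_of_nonneg_left hc hP.le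
      have h8 : P * (1 / P * |b|) = |b| := by field_simp
      rw [h8] at this
      linarith
    have hyabs : |y| = Real.pi * (1 / (2 * P)) * |b| := by
      rw [hy, abs_mul, abs_of_pos (by positivity : 0 < Real.pi * (1 / (2 * P)))]
    have v : ∀ t : ℝ, |t - b| ≤ h * P * ‖ξ‖ →
        7 / 8 * |y| ≤ |Real.pi * (1 / (2 * P)) * t| ∧
        |Real.pi * (1 / (2 * P)) * t - y| ≤ Real.pi / 2 * (h * ‖ξ‖) := by
      intro t ht
      constructor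
      · rw [hyabs, abs_mul, abs_of_pos (by positivity : 0 < Real.pi * (1 / (2 * P)))]
        have w1 : 7 / 8 * |b| ≤ |t| := by
          have := abs_sub_abs_le_abs_sub b t
          rw [abs_sub_comm b t] at this
          linarith
        calc 7 / 8 * (Real.pi * (1 / (2 * P)) * |b|) = Real.pi * (1 / (2 * P)) * (7 / 8 * |b|) := by
              ring
          _ ≤ Real.pi * (1 / (2 * P)) * |t| := mul_le_mul_of_nonneg_left w1 (by positivity)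
      · rw [hy, ← mul_sub, abs_mul, abs_of_pos (by positivity : 0 < Real.pi * (1 / (2 * P)))]
        calc Real.pi * (1 / (2 * P)) * |t - b| ≤ Real.pi * (1 / (2 * P)) * (h * P * ‖ξ‖) := by gcongr
          _ = Real.pi / 2 * (h * ‖ξ‖) := by field_simp
    obtain ⟨v1, v1'⟩ := v _ e1
    obtain ⟨v2, v2'⟩ := v _ e2
    have hw : W₀ = (Wd (⟪c, ξ⟫ - y / (2 * Real.pi)) y + Wd (⟪c, ξ⟫ + y / (2 * Real.pi)) y) / 2 := by
      rw [← Wd_two, hW0]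
      congr 1
      rw [hy]
      field_simp
    have hw' : (W₁ + W₂) / 2 - W₀ =
        ((W₁ - Wd (⟪c, ξ⟫ - y / (2 * Real.pi)) y) +
        (W₂ - Wd (⟪c, ξ⟫ + y / (2 * Real.pi)) y)) / 2 := by
      rw [hw]; ring
    have g1 : |⟪c₁, ξ⟫ - (⟪c, ξ⟫ - y / (2 * Real.pi))| ≤ h * ‖ξ‖ := by
      have : ⟪c₁, ξ⟫ - (⟪c, ξ⟫ - y / (2 * Real.pi)) =
          (c₁ 1 - (c 1 - s / (4 * P))) * ξ 1 := by
        rw [hy, hb, hE, p4, p4, b1]
        field_simp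
        ring
      rw [this, abs_mul]
      exact mul_le_mul d1 q2 (abs_nonneg _) hhp.le
    have g2 : |⟪c₂, ξ⟫ - (⟪c, ξ⟫ + y / (2 * Real.pi))| ≤ h * ‖ξ‖ := by
      have : ⟪c₂, ξ⟫ - (⟪c, ξ⟫ + y / (2 * Real.pi)) =
          (c₂ 1 - (c 1 + s / (4 * P))) * ξ 1 := by
        rw [hy, hb, hE, p4, p4, b2]
        field_simp
        ring
      rw [this, abs_mul]
      exact mul_le_mul d2 q2 (abs_nonneg _) hhp.le
    have f1 := Wd_diff2 hS ⟪c₁, ξ⟫ (⟪c, ξ⟫ - y / (2 * Real.pi))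
      (Real.pi * (1 / (2 * P)) * bb₁) y v1
    have f2 := Wd_diff2 hS ⟪c₂, ξ⟫ (⟪c, ξ⟫ + y / (2 * Real.pi))
      (Real.pi * (1 / (2 * P)) * bb₂) y v2
    rw [← hW1] at f1
    rw [← hW2] at f2
    have hz : 0 ≤ h * ‖ξ‖ := by positivity
    have g1' : 2 * Real.pi * |⟪c₁, ξ⟫ - (⟪c, ξ⟫ - y / (2 * Real.pi))| ≤
        2 * Real.pi * (h * ‖ξ‖) := by gcongr
    have g2' : 2 * Real.pi * |⟪c₂, ξ⟫ - (⟪c, ξ⟫ + y / (2 * Real.pi))| ≤
        2 * Real.pi * (h * ‖ξ‖) := by gcongr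
    have hpz : Real.pi * (h * ‖ξ‖) ≤ 3.15 * (h * ‖ξ‖) := mul_le_mul_of_nonneg_right hpi2.le hz
    have F : |y| * ‖(W₁ + W₂) / 2 - W₀‖ ≤ 11 * (h * ‖ξ‖) := by
      rw [hw', norm_div]
      simp only [Complex.norm_ofNat]
      have tt := norm_add_le (W₁ - Wd (⟪c, ξ⟫ - y / (2 * Real.pi)) y)
        (W₂ - Wd (⟪c, ξ⟫ + y / (2 * Real.pi)) y)
      have tt2 := mul_le_mul_of_nonneg_left tt (abs_nonneg y)
      have e9 : |y| * (‖W₁ - Wd (⟪c, ξ⟫ - y / (2 * Real.pi)) y +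
          (W₂ - Wd (⟪c, ξ⟫ + y / (2 * Real.pi)) y)‖ / 2) =
          (|y| * ‖W₁ - Wd (⟪c, ξ⟫ - y / (2 * Real.pi)) y +
          (W₂ - Wd (⟪c, ξ⟫ + y / (2 * Real.pi)) y)‖) / 2 := by ring
      rw [e9]
      rw [mul_add] at tt2
      linarith
    have hyb : 1 / P * |b| = 2 / Real.pi * |y| := by
      rw [hyabs]
      field_simp
    rw [hyb]
    have h2pi : 2 / Real.pi ≤ 2 / 3 := div_le_div_of_nonneg_left (by norm_num) (by norm_num) hpi.le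
    have hyN : 0 ≤ |y| * ‖(W₁ + W₂) / 2 - W₀‖ := by positivity
    calc ‖(W₁ + W₂) / 2 - W₀‖ * |kap m ξ| * (2 / Real.pi * |y|)
        = |kap m ξ| * (2 / Real.pi * (|y| * ‖(W₁ + W₂) / 2 - W₀‖)) := by ring
      _ ≤ 1 * (2 / 3 * (11 * (h * ‖ξ‖))) :=
          mul_le_mul hκ1 (mul_le_mul h2pi F hyN (by norm_num)) (by positivity) zero_le_one
      _ ≤ 16 * (‖ξ‖ * h) := by linarith
  · push Not at hc
    calc _ ≤ 2 * (1 / P * |⟪E s, ξ⟫|) := mul_le_mul_of_nonneg_right hmain (by positivity)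
      _ ≤ 2 * (8 * (h * ‖ξ‖)) := by linarith
      _ = 16 * (‖ξ‖ * h) := by ring

theorem hPE1 (hPT : StPT) (hSINC : StSINC) (hPSP : StPSP) : StPE1 := by
  intro C₀ hC₀
  obtain ⟨C, hC, hc⟩ := hPSP C₀ hC₀
  refine ⟨16 * C, by positivity, ?_⟩
  intro u s c m R K A σ s₁ s₂ c₁ c₂ hSys hj ξ hξ
  set P : ℝ := (2 : ℝ) ^ u with hP
  have hPpos : 0 < P := by positivity
  set e : ℕ → ℂ := fun j => (Yh (s₁ j) (c₁ j) (m j) (1 / (2 * P)) ξ +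
          Yh (s₂ j) (c₂ j) (m j) (1 / (2 * P)) ξ) / 2 -
          Yh (s j) (c j) (m j) (1 / P) ξ with he
  have hm : ∀ j < 2 ^ u, ‖e j‖ ≤ 2 ∧ ‖e j‖ ≤ 8 * (‖ξ‖ * (2 : ℝ) ^ (-(m j : ℤ))) ∧
      ‖e j‖ * (1 / P * |⟪E (s j), ξ⟫|) ≤ 8 ∧
      ‖e j‖ * (1 / P * |⟪E (s j), ξ⟫|) ≤ 16 * (‖ξ‖ * (2 : ℝ) ^ (-(m j : ℤ))) := by
    intro j hju
    obtain ⟨-, -, a1, a2, b1, b2, d1, d2⟩ := hj j hju
    have h1 := main hPT hSINC P ((2 : ℝ) ^ (-(m j : ℤ))) (m j) hPpos rfl (s j) (s₁ j) (s₂ j)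
      (c j) (c₁ j) (c₂ j) a1 a2 b1 b2 d1 d2 ξ
    have h2 := main2 hPT hSINC P ((2 : ℝ) ^ (-(m j : ℤ))) (m j) hPpos rfl (s j) (s₁ j) (s₂ j)
      (c j) (c₁ j) (c₂ j) a1 a2 b1 b2 d1 d2 ξ
    exact ⟨h1.1, h1.2.1, h1.2.2.2, h2⟩
  change ∑ j ∈ Finset.range (2 ^ u), ‖e j‖ ≤ _
  have h1 := hc u s c m m R K A σ hSys ξ (fun j => ‖e j‖ / 16) hξ (by
    intro j hju
    obtain ⟨q1, q2, q3, q4⟩ := hm j hju
    have hε : 0 ≤ ‖ξ‖ * (2 : ℝ) ^ (-(m j : ℤ)) := by positivity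
    have e1 : ‖e j‖ / 16 * (1 / P * |⟪E (s j), ξ⟫|) = ‖e j‖ * (1 / P * |⟪E (s j), ξ⟫|) / 16 := by
      ring
    refine ⟨by positivity, ?_, ?_, ?_, ?_⟩
    · change ‖e j‖ / 16 ≤ 1
      linarith
    · change ‖e j‖ / 16 ≤ _
      linarith
    · change ‖e j‖ / 16 * (1 / P * |⟪E (s j), ξ⟫|) ≤ 1
      rw [e1]
      linarith
    · change ‖e j‖ / 16 * (1 / P * |⟪E (s j), ξ⟫|) ≤ _
      rw [e1]
      linarith)
  have h5 : ∑ j ∈ Finset.range (2 ^ u), ‖e j‖ =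
      16 * ∑ j ∈ Finset.range (2 ^ u), ‖e j‖ / 16 := by
    rw [Finset.mul_sum]
    refine Finset.sum_congr rfl (fun j _ => ?_)
    ring
  rw [h5, mul_assoc]
  exact mul_le_mul_of_nonneg_left h1 (by norm_num)

end Pool.Agent.Helper61.RL
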