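import Pool.Agent.Helper20.RL.St2

set_option autoImplicit false

open MeasureTheory Set Filter Topology
open scoped ENNReal RealInnerProductSpace

namespace Pool.Agent.Helper61.RL

open Pool.Agent.Helper68.LM (Pl BB Bd Av HL ft fm DQ)
open Pool.Agent.Helper20.RG Pool.Agent.Helper20.RL

theorem assemble (T S : ℕ → ℝ≥0∞) (K : ℕ) (a b c e : ℝ) (Wt V : ℝ≥0∞) (ha : 0 ≤ a) (hb : 0 ≤ b)
    (h1 : ∀ k < K, T k ≤ ENNReal.ofReal a * S k)
    (h2 : ∑ k ∈ Finset.range K, S k ≤ ENNReal.ofReal b * Wt)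
    (h3 : Wt ≤ ENNReal.ofReal c * V) (h4 : a * b * c ≤ e) :
    ∑ k ∈ Finset.range K, T k ≤ ENNReal.ofReal e * V := by
  calc ∑ k ∈ Finset.range K, T k ≤ ∑ k ∈ Finset.range K, ENNReal.ofReal a * S k :=
        Finset.sum_le_sum fun k hk => h1 k (Finset.mem_range.1 hk)
    _ = ENNReal.ofReal a * ∑ k ∈ Finset.range K, S k := by rw [Finset.mul_sum]
    _ ≤ ENNReal.ofReal a * (ENNReal.ofReal b * (ENNReal.ofReal c * V)) := by
        gcongr
        exact h2.trans (by gcongr)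
    _ = ENNReal.ofReal (a * b * c) * V := by
        rw [ENNReal.ofReal_mul (mul_nonneg ha hb), ENNReal.ofReal_mul ha]
        ring
    _ ≤ ENNReal.ofReal e * V := by
        gcongr

theorem sum_le_K (F : Set Pl) (U : ℕ → ℤ → Set Pl) (N K : ℕ) :
    ∑ k ∈ Finset.range K, ∑ j ∈ Finset.range N, volume (F ∩ U j k) ≤
      ENNReal.ofReal (K : ℝ) * ∑ j ∈ Finset.range N, volume (F ∩ ⋃ k ∈ Ico (0 : ℤ) K, U j k) := by
  have h : ∀ k ∈ Finset.range K, ∑ j ∈ Finset.range N, volume (F ∩ U j k) ≤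
      ∑ j ∈ Finset.range N, volume (F ∩ ⋃ k ∈ Ico (0 : ℤ) K, U j k) := by
    intro k hk
    refine Finset.sum_le_sum fun j _ => measure_mono (inter_subset_inter_right F ?_)
    have hk' : (k : ℤ) ∈ Ico (0 : ℤ) K :=
      ⟨Int.natCast_nonneg k, by exact_mod_cast Finset.mem_range.1 hk⟩
    exact subset_biUnion_of_mem (u := fun k : ℤ => U j k) hk'
  refine (Finset.sum_le_sum h).trans ?_
  rw [Finset.sum_const, Finset.card_range, nsmul_eq_mul, ENNReal.ofReal_natCast]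

theorem sum_swap_le (F : Set Pl) (U : ℕ → ℤ → Set Pl) (N K : ℕ) (b : ℝ)
    (h : ∀ j < N, ∑ k ∈ Finset.range K, volume (F ∩ U j k) ≤
      ENNReal.ofReal b * volume (F ∩ ⋃ k ∈ Ico (0 : ℤ) K, U j k)) :
    ∑ k ∈ Finset.range K, ∑ j ∈ Finset.range N, volume (F ∩ U j k) ≤
      ENNReal.ofReal b * ∑ j ∈ Finset.range N, volume (F ∩ ⋃ k ∈ Ico (0 : ℤ) K, U j k) := by
  rw [Finset.sum_comm, Finset.mul_sum]
  exact Finset.sum_le_sum fun j hj => h j (Finset.mem_range.1 hj)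

theorem num_le (C C' q ε ε' : ℝ) (u : ℕ) (hC : C ≤ C') (hC0 : 0 ≤ C) (hε : ε' ≤ ε) :
    C * (2 : ℝ) ^ ((q - ε) * u) ≤ C' * (2 : ℝ) ^ ((q - ε') * u) := by
  have hu : (0 : ℝ) ≤ u := Nat.cast_nonneg u
  have h1 : (2 : ℝ) ^ ((q - ε) * u) ≤ (2 : ℝ) ^ ((q - ε') * u) :=
    Real.rpow_le_rpow_of_exponent_le (by norm_num)
      (mul_le_mul_of_nonneg_right (by linarith) hu)
  exact mul_le_mul hC h1 (Real.rpow_nonneg (by norm_num) _) (hC0.trans hC)

theorem hLCT (hLLM : StLLM) (hLCI : StLCI) (hLPA : StLPA) (hLPB : StLPB) (hLXM : StLXM)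
    (hLXR : StLXR) (hLNA : StLNA) (hLNB : StLNB) (hLNC : StLNC) (hLND : StLND) : StLCT := by
  intro A σ q Cf hA hσ hσq hq hCf
  obtain ⟨κ, hκ, hI⟩ := hLCI
  obtain ⟨C₄, hC₄, hXR⟩ := hLXR
  obtain ⟨ua, Ca, εa, hCa, hεa, na⟩ := hLNA q (by linarith)
  obtain ⟨ub, nb⟩ := hLNB A σ q κ hA hσ hσq hq hκ
  obtain ⟨uc, Cc, εc, hCc, hεc, nc⟩ := hLNC A σ q κ Cf hA hσ hσq hq hκ hCf
  obtain ⟨ud, Cd, εd, hCd, hεd, nd⟩ := hLND A σ q κ C₄ Cf hA hσ hσq hq hκ hC₄ hCf
  refine ⟨ua + ub + uc + ud + ⌈Cf⌉₊ + 4, Ca + Cc + Cd, min εa (min εc εd), by linarith,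
    lt_min hεa (lt_min hεc hεd), ?_⟩
  intro u K τ s c m F η m₁ hu hS hc hK hF hD hN hτ
  have hu4 : 4 ≤ u := by omega
  have hu1 : 1 ≤ u := by omega
  have hu2 : 2 ≤ u := by omega
  have hu0 : (0 : ℝ) < u := by exact_mod_cast hu1
  have hη0 : 0 < η := hN.1
  have hη1 : η ≤ 1 := hN.2.1
  have hm0 : 0 < m₁ := lt_of_lt_of_le (by positivity) hN.2.2.2.1
  have ha0 : 0 ≤ 70 / (m₁ * η) := by positivity
  -- `Cf ≤ 2^u`
  have hCfu : Cf ≤ (2 : ℝ) ^ u := by
    have h1 : Cf ≤ (⌈Cf⌉₊ : ℝ) := Nat.le_ceil Cf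
    have h2 : ⌈Cf⌉₊ ≤ 2 ^ u := by
      have h3 : u < 2 ^ u := Nat.lt_two_pow_self
      omega
    have h4 : (⌈Cf⌉₊ : ℝ) ≤ ((2 ^ u : ℕ) : ℝ) := by exact_mod_cast h2
    push_cast at h4
    exact h1.trans h4
  -- `K ≤ 2^(3u)`
  have hK3 : K ≤ 2 ^ (3 * u) := by
    have h1 : (2 : ℝ) ^ (σ * u) ≤ (2 : ℝ) ^ ((2 * u : ℕ) : ℝ) := by
      apply Real.rpow_le_rpow_of_exponent_le (by norm_num)
      push_cast
      exact mul_le_mul_of_nonneg_right (by linarith) hu0.le
    rw [Real.rpow_natCast] at h1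
    have h2 : (K : ℝ) ≤ (2 : ℝ) ^ u * (2 : ℝ) ^ (2 * u) :=
      hK.trans (mul_le_mul hCfu h1 (Real.rpow_nonneg (by norm_num) _) (by positivity))
    rw [← pow_add] at h2
    have h3 : (K : ℝ) ≤ ((2 ^ (3 * u) : ℕ) : ℝ) := by
      push_cast
      refine h2.trans (le_of_eq ?_)
      congr 1
      ring
    exact_mod_cast h3
  have hK4 : K ≤ 2 ^ (4 * u) := hK3.trans (Nat.pow_le_pow_right (by norm_num) (by omega))
  obtain ⟨L0, -, L2, L3, L4, -, -⟩ := hLLM u hu1
  -- the Markov estimate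
  have hMar : ∀ k : ℕ, volume {x | m₁ ≤ ({j : ℕ | j < 2 ^ u ∧
      Hit (s j) (c j) (m j) u k (CU F (s j) (m j) u η τ k) x}.ncard : ℝ)} ≤
      ENNReal.ofReal (70 / (m₁ * η)) *
        ∑ j ∈ Finset.range (2 ^ u), volume (F ∩ UU F (s j) (m j) u η τ k) := fun k =>
    hLXM u τ (k : ℤ) s c m F η m₁ hu1 hτ hF hη0 hm0
  -- the case of short lengths
  have hsmall : ∀ b : ℕ, 2 * b ≤ u → τ ≤ Mt u → lad u τ < lad u (τ + 1) →
      lad u (τ + 1) - lad u τ ≤ 1025 * (u : ℤ) ^ 2 * 2 ^ b →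
      ∑ k ∈ Finset.range K, volume {x | m₁ ≤ ({j : ℕ | j < 2 ^ u ∧
        Hit (s j) (c j) (m j) u k (CU F (s j) (m j) u η τ k) x}.ncard : ℝ)} ≤
        ENNReal.ofReal ((Ca + Cc + Cd) * (2 : ℝ) ^ ((q - min εa (min εc εd)) * u)) * volume F := by
    intro b hb hτ' hl1 hl2
    refine assemble _ (fun k : ℕ => ∑ j ∈ Finset.range (2 ^ u), volume (F ∩ UU F (s j) (m j) u η τ k))
      K (70 / (m₁ * η)) (10 ^ 6 * (u : ℝ) ^ 5 * 2 ^ b) ((2 : ℝ) ^ u) _
      (∑ j ∈ Finset.range (2 ^ u), volume (F ∩ ⋃ k ∈ Ico (0 : ℤ) K, UU F (s j) (m j) u η τ k))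
      (volume F) ha0 (by positivity) (fun k _ => hMar k) ?_ ?_ ?_
    · exact sum_swap_le F (fun j k => UU F (s j) (m j) u η τ k) (2 ^ u) K _
        (fun j _ => hLPA F (s j) (m j) u η τ b K hF hu1 hη0 hτ' hK4 hl1 hl2)
    · calc ∑ j ∈ Finset.range (2 ^ u), volume (F ∩ ⋃ k ∈ Ico (0 : ℤ) K, UU F (s j) (m j) u η τ k)
          ≤ ∑ j ∈ Finset.range (2 ^ u), volume F :=
            Finset.sum_le_sum fun j _ => measure_mono inter_subset_left
        _ = ENNReal.ofReal ((2 : ℝ) ^ u) * volume F := by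
            rw [Finset.sum_const, Finset.card_range, nsmul_eq_mul]
            congr 1
            rw [← ENNReal.ofReal_natCast]
            push_cast
            rfl
    · exact (na u b η m₁ (by omega) hN hb).trans
        (num_le Ca _ q εa _ u (by linarith) hCa.le (min_le_left _ _))
  rcases Nat.eq_zero_or_pos τ with h0 | hpos
  · refine hsmall 0 (by omega) (by omega) ?_ ?_
    · rw [h0, L0]
      have := L2 0 0 (by omega)
      simp only [mul_zero, zero_add] at this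
      rw [zero_add, this]
      have h5 : (0 : ℤ) ≤ (om u 0 0 : ℤ) := Int.natCast_nonneg _
      omega
    · rw [h0]
      simpa using L3
  · -- `τ = 16 u b + l + 1`
    set b := (τ - 1) / (16 * u) with hb
    set l := (τ - 1) % (16 * u) with hl
    have h16 : 0 < 16 * u := by omega
    have hll : l < 16 * u := Nat.mod_lt _ h16
    have hdm : 16 * u * b + l = τ - 1 := Nat.div_add_mod (τ - 1) (16 * u)
    have hτe : τ = 16 * u * b + l + 1 := by omega
    have hbl : 16 * u * b + l ≤ Mt u := by omega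
    have hb3 : b ≤ 3 * u + 1 := by
      by_contra hcon
      push Not at hcon
      have h1 : 16 * u * (3 * u + 2) ≤ 16 * u * b := Nat.mul_le_mul_left _ (by omega)
      have h2 : 16 * u * (3 * u + 2) = Mt u + 16 * u := by unfold Mt; ring
      omega
    have hlad1 : lad u τ = (om u b l : ℤ) := by rw [hτe]; exact L2 b l (by omega)
    have hlad2 : lad u (τ + 1) = (om u b (l + 1) : ℤ) := by
      rw [hτe]; exact L2 b (l + 1) (by omega)
    have hladlt : lad u τ < lad u (τ + 1) := by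
      rw [hlad1, hlad2]
      unfold om
      have h1 : 2 ^ b * (1024 * u ^ 2 + 64 * u * l) < 2 ^ b * (1024 * u ^ 2 + 64 * u * (l + 1)) := by
        apply Nat.mul_lt_mul_of_pos_left _ (by positivity)
        have : 64 * u * (l + 1) = 64 * u * l + 64 * u := by ring
        omega
      exact_mod_cast h1
    have hladle : lad u (τ + 1) - lad u τ ≤ 1025 * (u : ℤ) ^ 2 * 2 ^ b := by
      have h1 := L4 b l hll
      have h2 : 16 * u * b + l + 2 = τ + 1 := by omega
      rw [h2, ← hτe] at h1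
      refine h1.trans ?_
      have hu' : (1 : ℤ) ≤ u := by exact_mod_cast hu1
      have h3 : 64 * (u : ℤ) ≤ 1025 * (u : ℤ) ^ 2 := by nlinarith
      exact mul_le_mul_of_nonneg_right h3 (by positivity)
    by_cases h2b : 2 * b ≤ u
    · refine hsmall b h2b ?_ hladlt hladle
      have h1 : 16 * u * b + 16 * u ≤ Mt u := by
        have : 16 * u * (b + 1) ≤ 16 * u * (3 * u + 1) := Nat.mul_le_mul_left _ (by omega)
        have h3 : 16 * u * (b + 1) = 16 * u * b + 16 * u := by ring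
        unfold Mt
        omega
      omega
    · push Not at h2b
      have hub := nb u b η m₁ (by omega) hN h2b
      -- the number of scales
      have hsc : ∑ k ∈ Finset.range K, ∑ j ∈ Finset.range (2 ^ u),
          volume (F ∩ UU F (s j) (m j) u η τ k) ≤
          ENNReal.ofReal (min (10 ^ 6 * (u : ℝ) ^ 5 * 2 ^ b) (K : ℝ)) *
          ∑ j ∈ Finset.range (2 ^ u), volume (F ∩ ⋃ k ∈ Ico (0 : ℤ) K,
            UU F (s j) (m j) u η τ k) := by
        have hKb := sum_le_K F (fun j k => UU F (s j) (m j) u η τ k) (2 ^ u) K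
        rcases le_total (10 ^ 6 * (u : ℝ) ^ 5 * 2 ^ b) (K : ℝ) with hle | hle
        · rw [min_eq_left hle]
          have hτ' : τ ≤ Mt u := by
            by_contra hcon
            push Not at hcon
            have hτM : τ - 1 = 16 * u * (3 * u + 1) := by
              have : Mt u = 16 * u * (3 * u + 1) := rfl
              omega
            have hbe : b = 3 * u + 1 := by
              rw [hb, hτM, Nat.mul_div_cancel_left _ h16]
            have hK5 : (K : ℝ) ≤ (2 : ℝ) ^ (3 * u) := by exact_mod_cast hK3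
            have hu1' : (1 : ℝ) ≤ u := by exact_mod_cast hu1
            have hu5 : (1 : ℝ) ≤ (u : ℝ) ^ 5 := one_le_pow₀ hu1'
            have h2p : (0 : ℝ) < (2 : ℝ) ^ (3 * u) := by positivity
            rw [hbe, pow_succ (2 : ℝ) (3 * u)] at hle
            have h6 : (2 : ℝ) ^ (3 * u) < 10 ^ 6 * (u : ℝ) ^ 5 * ((2 : ℝ) ^ (3 * u) * 2) := by
              nlinarith [mul_le_mul_of_nonneg_right hu5 h2p.le]
            linarith
          exact sum_swap_le F (fun j k => UU F (s j) (m j) u η τ k) (2 ^ u) K _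
            (fun j _ => hLPA F (s j) (m j) u η τ b K hF hu1 hη0 hτ' hK4 hladlt hladle)
        · rw [min_eq_right hle]
          exact hKb
      have hmin0 : 0 ≤ min (10 ^ 6 * (u : ℝ) ^ 5 * 2 ^ b) (K : ℝ) :=
        le_min (by positivity) (Nat.cast_nonneg K)
      have hpb : ∑ j ∈ Finset.range (2 ^ u), volume (F ∩ ⋃ k ∈ Ico (0 : ℤ) K,
          UU F (s j) (m j) u η τ k) ≤
          ENNReal.ofReal (4 * M0 κ u b A σ (8 * (2 : ℝ) ^ (-(q * u))) (η / 2)) * volume F := by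
        rw [hτe]
        exact hLPB κ hκ hI u b l K A σ s m F (8 * (2 : ℝ) ^ (-(q * u))) η hu2 (by omega) hll hbl hA hS
          (fun j hj => (hc j hj).2) hF hD hub.2.1 hub.1 hη1
      by_cases hcase : m₁ < 1000 ∨ m₁ < 200 * ns u b A σ
      · refine assemble _ (fun k : ℕ => ∑ j ∈ Finset.range (2 ^ u),
          volume (F ∩ UU F (s j) (m j) u η τ k)) K (70 / (m₁ * η))
          (min (10 ^ 6 * (u : ℝ) ^ 5 * 2 ^ b) (K : ℝ))
          (4 * M0 κ u b A σ (8 * (2 : ℝ) ^ (-(q * u))) (η / 2)) _ _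
          (volume F) ha0 hmin0 (fun k _ => hMar k) hsc hpb ?_
        exact (nc u b K η m₁ (by omega) hN h2b hK hcase).trans
          (num_le Cc _ q εc _ u (by linarith) hCc.le ((min_le_right _ _).trans (min_le_left _ _)))
      · push Not at hcase
        have hnum := nd u b K η m₁ (by omega) hN h2b hK
        have hxr : ∀ k : ℕ, volume {x | m₁ ≤ ({j : ℕ | j < 2 ^ u ∧
            Hit (s j) (c j) (m j) u k (CU F (s j) (m j) u η τ k) x}.ncard : ℝ)} ≤
            ENNReal.ofReal (((1 / 2) ^ (16 * u) / (43008 * M0 κ u (b - 1) A σ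
                (8 * (2 : ℝ) ^ (-(q * u))) (η / 2) * (8 * (2 : ℝ) ^ (-(q * u))) / η) +
              u * C₄ * ns u b A σ * (43008 * M0 κ u (b - 1) A σ (8 * (2 : ℝ) ^ (-(q * u))) (η / 2) *
                (8 * (2 : ℝ) ^ (-(q * u))) / η) / m₁ ^ 3) * (42 / η)) *
              ∑ j ∈ Finset.range (2 ^ u), volume (F ∩ UU F (s j) (m j) u η τ k) := by
          intro k
          rw [hτe]
          exact hXR κ hκ hI u b l k A σ s c m F (8 * (2 : ℝ) ^ (-(q * u))) η m₁ hu2 (by omega) hll hbl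
            hA hS (fun j hj => ⟨(hc j hj).1.trans hCfu, (hc j hj).2⟩) hF hD hub.2.1 hub.1 hη1 hcase.1
            hcase.2 hub.2.2
        have hns : 0 ≤ ns u b A σ := by
          unfold ns
          positivity
        have hM0 : 0 ≤ M0 κ u (b - 1) A σ (8 * (2 : ℝ) ^ (-(q * u))) (η / 2) := by
          unfold M0 ns
          positivity
        refine assemble _ (fun k : ℕ => ∑ j ∈ Finset.range (2 ^ u),
          volume (F ∩ UU F (s j) (m j) u η τ k)) K _
          (min (10 ^ 6 * (u : ℝ) ^ 5 * 2 ^ b) (K : ℝ))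
          (4 * M0 κ u b A σ (8 * (2 : ℝ) ^ (-(q * u))) (η / 2)) _ _
          (volume F) ?_ hmin0 (fun k _ => hxr k) hsc hpb ?_
        · positivity
        · exact hnum.trans
            (num_le Cd _ q εd _ u (by linarith) hCd.le
              ((min_le_right _ _).trans (min_le_right _ _)))

end Pool.Agent.Helper61.RL
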